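import Pool.Agent.Helper25.EC.Frame

/-!
# Elementary Type Conjecture, Part III: the group theoretic part (FP)

Author: helper40 (proof plan: helper59).

`G` is a profinite group, `H i` finitely many closed subgroups. If homomorphisms to `ℤ/p` extend
(`HomExt`) and locally constant 2-cocycles which split on all `H i` split on `G` (`CocLG`), then
`G` is the free pro-p product of the `H i` and of finitely many closed subgroups `ℤ_p`.
-/

set_option autoImplicit false

namespace Pool.Agent.Helper40.EC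

open Pool.Agent.Helper25.EC

/-- (H1): homomorphisms `H i → ℤ/p` extend simultaneously to `G`. -/
def HomExt (p : ℕ) {G : Type*} [Group G] [TopologicalSpace G] {ι : Type*}
    (H : ι → Subgroup G) : Prop :=
  ∀ χ : (i : ι) → (H i →* Multiplicative (ZMod p)), (∀ i, IsOpen ((χ i).ker : Set (H i))) →
    ∃ χ' : G →* Multiplicative (ZMod p), IsOpen (χ'.ker : Set G) ∧
      ∀ i, ∀ x : H i, χ' (x : G) = χ i x

/-- (LG): a locally constant 2-cocycle `G × G → ℤ/p` which splits on all `H i` splits on `G`. -/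
def CocLG (p : ℕ) {G : Type*} [Group G] [TopologicalSpace G] {ι : Type*}
    (H : ι → Subgroup G) : Prop :=
  ∀ c : G → G → ZMod p, (∀ x y z, c x y + c (x * y) z = c y z + c x (y * z)) →
    (∃ N : Subgroup G, N.Normal ∧ IsOpen (N : Set G) ∧
      ∀ x y, ∀ n ∈ N, ∀ m ∈ N, c (x * n) (y * m) = c x y) →
    (∀ i, ∃ g : H i → ZMod p,
      (∃ N : Subgroup G, N.Normal ∧ IsOpen (N : Set G) ∧
        ∀ x y : H i, (x : G)⁻¹ * (y : G) ∈ N → g x = g y) ∧
      ∀ x y : H i, c x y = g x + g y - g (x * y)) →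
    ∃ g : G → ZMod p, IsLocallyConstant g ∧ ∀ x y, c x y = g x + g y - g (x * y)

section general

variable {p : ℕ} {G : Type*} [Group G] [TopologicalSpace G] [IsTopologicalGroup G]

theorem locConst_of_ker {P : Type*} [Group P] (f : G →* P) (h : IsOpen (f.ker : Set G)) :
    IsLocallyConstant f := by
  rw [IsLocallyConstant.iff_exists_open]
  intro x
  refine ⟨(fun y => x⁻¹ * y) ⁻¹' (f.ker : Set G), h.preimage (continuous_const_mul x⁻¹), ?_, ?_⟩
  · simp
  · intro y hy
    have h1 : f (x⁻¹ * y) = 1 := hy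
    rw [map_mul, map_inv, inv_mul_eq_one] at h1
    exact h1.symm

omit [IsTopologicalGroup G] in
theorem ker_of_locConst {P : Type*} [Group P] (f : G →* P) (h : IsLocallyConstant f) :
    IsOpen (f.ker : Set G) := by
  have := h {1}
  exact this

/-- multiplication of a homomorphism by a central one. -/
def cmul {P : Type*} [Group P] (e : Multiplicative (ZMod p) →* P)
    (hc : ∀ a, ∀ x : P, e a * x = x * e a) {X : Type*} [Group X] (χ : X →* Multiplicative (ZMod p))
    (ψ : X →* P) : X →* P :=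
  MonoidHom.mk' (fun x => e (χ x) * ψ x) (by
    intro x y
    simp only [map_mul]
    rw [mul_assoc, mul_assoc, ← mul_assoc (e (χ y)) (ψ x), hc _ (ψ x), mul_assoc])

end general

/-- central extension by `ℤ/p` in a `p`-group. -/
theorem exists_central {p : ℕ} [Fact p.Prime] {n : ℕ} (P : Type) [Group P] [Finite P]
    (hP : Nat.card P = p ^ (n + 1)) :
    ∃ (e : Multiplicative (ZMod p) →* P) (Q : Type) (_ : Group Q) (_ : Finite Q) (π : P →* Q),
      Function.Injective e ∧ (∀ a, ∀ x : P, e a * x = x * e a) ∧ Function.Surjective π ∧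
      (∀ x, π x = 1 ↔ ∃ a, e a = x) ∧ Nat.card Q = p ^ n := by
  have hp : p.Prime := Fact.out
  have hPG : IsPGroup p P := IsPGroup.of_card hP
  have hnt : Nontrivial P := by
    rw [← Finite.one_lt_card_iff_nontrivial, hP]
    exact Nat.one_lt_pow (by omega) hp.one_lt
  have hcn := hPG.center_nontrivial
  have hZP : IsPGroup p (Subgroup.center P) := hPG.to_subgroup _
  obtain ⟨m, hm0, hm⟩ := hZP.nontrivial_iff_card.mp hcn
  have hdvd : p ∣ Nat.card (Subgroup.center P) := by
    rw [hm]; exact dvd_pow_self p hm0.ne'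
  obtain ⟨z, hz⟩ := exists_prime_orderOf_dvd_card' p hdvd
  have hz' : orderOf (z : P) = p := by rw [← hz]; exact Subgroup.orderOf_coe z
  have hcard : Nat.card (Subgroup.zpowers (z : P)) = p := by rw [Nat.card_zpowers, hz']
  have hcyc : IsCyclic (Subgroup.zpowers (z : P)) := inferInstance
  let e0 : Multiplicative (ZMod p) ≃* Subgroup.zpowers (z : P) :=
    (AddEquiv.toMultiplicative (ZMod.ringEquivCongr hcard.symm).toAddEquiv).trans
      (zmodCyclicMulEquiv hcyc)
  have hcen : ∀ x ∈ Subgroup.zpowers (z : P), x ∈ Subgroup.center P := by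
    intro x hx
    exact (Subgroup.zpowers_le.mpr z.2) hx
  have hN : (Subgroup.zpowers (z : P)).Normal := by
    constructor
    intro x hx g
    have : g * x * g⁻¹ = x := by
      have := (Subgroup.mem_center_iff.mp (hcen x hx)) g
      rw [this]; group
    rwa [this]
  refine ⟨(Subgroup.subtype _).comp e0.toMonoidHom, P ⧸ Subgroup.zpowers (z : P), inferInstance,
    inferInstance, QuotientGroup.mk' _, ?_, ?_, QuotientGroup.mk'_surjective _, ?_, ?_⟩
  · exact Subtype.val_injective.comp e0.injective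
  · intro a x
    exact ((Subgroup.mem_center_iff.mp (hcen _ (e0 a).2)) x).symm
  · intro x
    rw [QuotientGroup.mk'_apply, QuotientGroup.eq_one_iff]
    constructor
    · intro hx
      obtain ⟨a, ha⟩ := e0.surjective ⟨x, hx⟩
      exact ⟨a, by simp [ha]⟩
    · rintro ⟨a, rfl⟩
      exact (e0 a).2
  · have h1 := Subgroup.card_eq_card_quotient_mul_card_subgroup (Subgroup.zpowers (z : P))
    rw [hP, hcard, pow_succ] at h1
    exact (Nat.eq_of_mul_eq_mul_right hp.pos h1).symm

section main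

variable {p : ℕ} [Fact p.Prime] {G : Type*} [Group G] [TopologicalSpace G] [IsTopologicalGroup G]
  {ι κ : Type*}

theorem unique_step {τ : κ → G} {H : ι → Subgroup G}
    (inj : ∀ χ : G →* Multiplicative (ZMod p), IsOpen (χ.ker : Set G) →
      (∀ i, ∀ x : H i, χ x = 1) → (∀ k, χ (τ k) = 1) → χ = 1) :
    ∀ (n : ℕ) (P : Type) [Group P] [Finite P], Nat.card P = p ^ n →
      ∀ ψ₁ ψ₂ : G →* P, IsOpen (ψ₁.ker : Set G) → IsOpen (ψ₂.ker : Set G) →
        (∀ i, ∀ x : H i, ψ₁ x = ψ₂ x) → (∀ k, ψ₁ (τ k) = ψ₂ (τ k)) → ψ₁ = ψ₂ := by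
  intro n
  induction n with
  | zero =>
    intro P _ _ hP ψ₁ ψ₂ _ _ _ _
    have : Subsingleton P := by
      rw [pow_zero] at hP
      exact (Nat.card_eq_one_iff_unique.mp hP).1
    ext x
    exact Subsingleton.elim _ _
  | succ n ih =>
    intro P _ _ hP ψ₁ ψ₂ h₁ h₂ hH hτ
    obtain ⟨e, Q, _, _, π, he, hc, hπ, hker, hQ⟩ := exists_central P hP
    have hπψ : π.comp ψ₁ = π.comp ψ₂ := by
      apply ih Q hQ
      · apply ker_of_locConst
        exact (locConst_of_ker ψ₁ h₁).comp π
      · apply ker_of_locConst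
        exact (locConst_of_ker ψ₂ h₂).comp π
      · intro i x; simp [hH i x]
      · intro k; simp [hτ k]
    have h3 : ∀ x, ∃ a, e a = ψ₁ x * (ψ₂ x)⁻¹ := by
      intro x
      rw [← hker, map_mul, map_inv]
      have := DFunLike.congr_fun hπψ x
      simp only [MonoidHom.comp_apply] at this
      rw [this, mul_inv_cancel]
    choose a ha using h3
    let χ : G →* Multiplicative (ZMod p) := MonoidHom.mk' a (by
      intro x y
      apply he
      rw [ha, map_mul, map_mul, map_mul, ha, ha, mul_inv_rev]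
      have h4 := hc (a y) (ψ₁ x)
      have h5 := hc (a y) (ψ₂ x)⁻¹
      rw [ha] at h4 h5
      calc ψ₁ x * ψ₁ y * ((ψ₂ y)⁻¹ * (ψ₂ x)⁻¹) = ψ₁ x * ((ψ₁ y * (ψ₂ y)⁻¹) * (ψ₂ x)⁻¹) := by group
        _ = ψ₁ x * ((ψ₂ x)⁻¹ * (ψ₁ y * (ψ₂ y)⁻¹)) := by rw [h5]
        _ = _ := by group)
    have hχ : χ = 1 := by
      apply inj
      · apply ker_of_locConst
        have h1 := locConst_of_ker ψ₁ h₁
        have h2 := locConst_of_ker ψ₂ h₂
        rw [IsLocallyConstant.iff_exists_open] at *
        intro x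
        obtain ⟨U, hU, hx, hU'⟩ := h1 x
        obtain ⟨V, hV, hx', hV'⟩ := h2 x
        refine ⟨U ∩ V, hU.inter hV, ⟨hx, hx'⟩, ?_⟩
        rintro y ⟨hy, hy'⟩
        apply he
        change e (a y) = e (a x)
        rw [ha, ha, hU' y hy, hV' y hy']
      · intro i x
        apply he
        change e (a x) = e 1
        rw [ha, hH i x, mul_inv_cancel, map_one]
      · intro k
        apply he
        change e (a _) = e 1
        rw [ha, hτ k, mul_inv_cancel, map_one]
    ext x
    have : e (a x) = 1 := by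
      have : a x = 1 := DFunLike.congr_fun hχ x
      rw [this, map_one]
    rw [ha] at this
    exact mul_inv_eq_one.mp this


/-- locally constant homomorphisms on a closed subgroup of a profinite group. -/
theorem exists_normal [CompactSpace G] [TotallyDisconnectedSpace G] {H : Subgroup G} {P : Type*}
    [Group P] (f : H →* P) (hf : IsOpen (f.ker : Set H)) :
    ∃ N : Subgroup G, N.Normal ∧ IsOpen (N : Set G) ∧
      ∀ x y : H, (x : G)⁻¹ * (y : G) ∈ N → f x = f y := by
  obtain ⟨U, hU, hUf⟩ := isOpen_induced_iff.mp hf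
  have h1 : (1 : G) ∈ U := by
    have : (1 : H) ∈ (f.ker : Set H) := f.ker.one_mem
    rw [← hUf] at this
    exact this
  obtain ⟨N, hN⟩ := ProfiniteGrp.exist_openNormalSubgroup_sub_open_nhds_of_one hU h1
  refine ⟨N.toSubgroup, N.isNormal', N.isOpen', ?_⟩
  intro x y hxy
  have h2 : (x⁻¹ * y : H) ∈ (f.ker : Set H) := by
    rw [← hUf]
    exact hN hxy
  have h3 : f (x⁻¹ * y) = 1 := h2
  rw [map_mul, map_inv, inv_mul_eq_one] at h3
  exact h3

theorem exist_step [CompactSpace G] [TotallyDisconnectedSpace G] {τ : κ → G} {H : ι → Subgroup G}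
    (hLG : CocLG p H)
    (ext : ∀ (χ : (i : ι) → (H i →* Multiplicative (ZMod p))),
      (∀ i, IsOpen ((χ i).ker : Set (H i))) → ∀ z : κ → Multiplicative (ZMod p),
      ∃ χ' : G →* Multiplicative (ZMod p), IsOpen (χ'.ker : Set G) ∧
        (∀ i, ∀ x : H i, χ' (x : G) = χ i x) ∧ ∀ k, χ' (τ k) = z k)
    {P Q : Type} [Group P] [Group Q] (e : Multiplicative (ZMod p) →* P) (π : P →* Q)
    (he : Function.Injective e) (hc : ∀ a, ∀ x : P, e a * x = x * e a)
    (hπ : Function.Surjective π) (hker : ∀ x, π x = 1 ↔ ∃ a, e a = x)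
    (ψ' : G →* Q) (hψ' : IsOpen (ψ'.ker : Set G)) (φ : (i : ι) → (H i →* P))
    (hφ : ∀ i, IsOpen ((φ i).ker : Set (H i))) (hcomp : ∀ i, ∀ x : H i, ψ' x = π (φ i x))
    (y : κ → P) (hy : ∀ k, ψ' (τ k) = π (y k)) :
    ∃ ψ : G →* P, IsOpen (ψ.ker : Set G) ∧ (∀ i, ∀ x : H i, ψ (x : G) = φ i x) ∧
      ∀ k, ψ (τ k) = y k := by
  -- the section and the cocycle
  obtain ⟨s, hs⟩ := hπ.hasRightInverse
  have hc0 : ∀ x y : G, ∃ a, e a = s (ψ' x) * s (ψ' y) * (s (ψ' (x * y)))⁻¹ := by
    intro x y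
    rw [← hker, map_mul, map_mul, map_inv, hs, hs, hs, map_mul, mul_inv_cancel]
  choose c hcc using hc0
  have hc1 : ∀ x y : G, e (c x y) * s (ψ' (x * y)) = s (ψ' x) * s (ψ' y) := by
    intro x y
    rw [hcc, inv_mul_cancel_right]
  have hcoc : ∀ x y z, c x y * c (x * y) z = c y z * c x (y * z) := by
    intro x y z
    apply he
    have h1 : e (c x y * c (x * y) z) * s (ψ' (x * y * z)) =
        s (ψ' x) * s (ψ' y) * s (ψ' z) := by
      rw [map_mul, mul_assoc, hc1, ← mul_assoc, hc1]
    have h2 : e (c y z * c x (y * z)) * s (ψ' (x * y * z)) =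
        s (ψ' x) * s (ψ' y) * s (ψ' z) := by
      rw [map_mul, mul_assoc, mul_assoc x y z, hc1, ← mul_assoc, hc, mul_assoc, hc1, mul_assoc]
    exact mul_right_cancel (h1.trans h2.symm)
  -- splitting on `H i`
  have hg0 : ∀ i, ∀ x : H i, ∃ a, e a = s (ψ' x) * (φ i x)⁻¹ := by
    intro i x
    rw [← hker, map_mul, map_inv, hs, hcomp, mul_inv_cancel]
  choose g hg using hg0
  have hg1 : ∀ i, ∀ x : H i, e (g i x) * φ i x = s (ψ' x) := by
    intro i x
    rw [hg, inv_mul_cancel_right]
  obtain ⟨g', hg'l, hg'⟩ := hLG (fun x y => (c x y).toAdd)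
    (by
      intro x y z
      have := congrArg Multiplicative.toAdd (hcoc x y z)
      simpa only [toAdd_mul] using this)
    (by
      refine ⟨ψ'.ker, inferInstance, hψ', ?_⟩
      intro x y n hn m hm
      have hn' : ψ' n = 1 := hn
      have hm' : ψ' m = 1 := hm
      have : c (x * n) (y * m) = c x y := by
        apply he
        rw [hcc, hcc]
        simp only [map_mul, hn', hm', mul_one]
      simp only [this])
    (by
      intro i
      refine ⟨fun x => (g i x).toAdd, ?_, ?_⟩
      · obtain ⟨N, hN, hNo, hN'⟩ := exists_normal (φ i) (hφ i)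
        refine ⟨N ⊓ ψ'.ker, inferInstance, hNo.inter hψ', ?_⟩
        intro x y hxy
        obtain ⟨h1, h2⟩ := Subgroup.mem_inf.mp hxy
        have h3 : ψ' (x : G) = ψ' (y : G) := by
          have h4 : ψ' ((x : G)⁻¹ * y) = 1 := h2
          rw [map_mul, map_inv, inv_mul_eq_one] at h4
          exact h4
        have : g i x = g i y := by
          apply he
          rw [hg, hg, h3, hN' x y h1]
        simp only [this]
      · intro x y
        have : c x y * g i (x * y) = g i x * g i y := by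
          apply he
          have h1 : e (c (x : G) (y : G) * g i (x * y)) * φ i (x * y) = s (ψ' x) * s (ψ' y) := by
            rw [map_mul, mul_assoc, hg1]
            exact hc1 x y
          have h2 : e (g i x * g i y) * φ i (x * y) = s (ψ' x) * s (ψ' y) := by
            rw [map_mul, map_mul, ← hg1, ← hg1]
            have := hc (g i y) (φ i x)
            calc e (g i x) * e (g i y) * (φ i x * φ i y)
                = e (g i x) * (e (g i y) * φ i x) * φ i y := by group
              _ = e (g i x) * (φ i x * e (g i y)) * φ i y := by rw [this]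
              _ = _ := by group
          exact mul_right_cancel (h1.trans h2.symm)
        have h2 := congrArg Multiplicative.toAdd this
        simp only [toAdd_mul] at h2
        linear_combination h2)
  -- the lift `ψ₀`
  have hg'' : ∀ x y, c x y * Multiplicative.ofAdd (g' (x * y)) =
      Multiplicative.ofAdd (g' x) * Multiplicative.ofAdd (g' y) := by
    intro x y
    apply Multiplicative.toAdd.injective
    simp only [toAdd_mul, toAdd_ofAdd]
    have := hg' x y
    linear_combination this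
  let ψ₀ : G →* P := MonoidHom.mk' (fun x => e (Multiplicative.ofAdd (- g' x)) * s (ψ' x)) (by
    intro x y
    have h1 : e (c x y) * s (ψ' (x * y)) = s (ψ' x) * s (ψ' y) := hc1 x y
    have h2 : e (Multiplicative.ofAdd (-g' (x * y))) =
        e (Multiplicative.ofAdd (-g' x)) * e (Multiplicative.ofAdd (-g' y)) * e (c x y) := by
      rw [← map_mul, ← map_mul]
      congr 1
      apply Multiplicative.toAdd.injective
      simp only [toAdd_mul, toAdd_ofAdd]
      have := hg' x y
      linear_combination -this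
    rw [h2, mul_assoc, h1]
    have := hc (Multiplicative.ofAdd (-g' y)) (s (ψ' x))
    calc e (Multiplicative.ofAdd (-g' x)) * e (Multiplicative.ofAdd (-g' y)) * (s (ψ' x) * s (ψ' y))
        = e (Multiplicative.ofAdd (-g' x)) * (e (Multiplicative.ofAdd (-g' y)) * s (ψ' x)) *
            s (ψ' y) := by group
      _ = _ := by rw [this]; group)
  have hψ₀l : IsLocallyConstant ψ₀ := by
    have h1 := locConst_of_ker ψ' hψ'
    have h2 := hg'l
    rw [IsLocallyConstant.iff_exists_open] at *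
    intro x
    obtain ⟨U, hU, hx, hU'⟩ := h1 x
    obtain ⟨V, hV, hx', hV'⟩ := h2 x
    refine ⟨U ∩ V, hU.inter hV, ⟨hx, hx'⟩, ?_⟩
    rintro y ⟨hy, hy'⟩
    change e (Multiplicative.ofAdd (- g' y)) * s (ψ' y) = e (Multiplicative.ofAdd (- g' x)) * s (ψ' x)
    rw [hU' y hy, hV' y hy']
  have hψ₀π : ∀ x, π (ψ₀ x) = ψ' x := by
    intro x
    change π (e (Multiplicative.ofAdd (- g' x)) * s (ψ' x)) = _
    rw [map_mul, hs, (hker _).mpr ⟨_, rfl⟩, one_mul]
  -- the differences
  have hχ0 : ∀ i, ∀ x : H i, ∃ a, e a = φ i x * (ψ₀ x)⁻¹ := by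
    intro i x
    rw [← hker, map_mul, map_inv, hψ₀π, hcomp, mul_inv_cancel]
  choose χ hχ using hχ0
  have hz0 : ∀ k, ∃ a, e a = y k * (ψ₀ (τ k))⁻¹ := by
    intro k
    rw [← hker, map_mul, map_inv, hψ₀π, hy, mul_inv_cancel]
  choose z hz using hz0
  let X : (i : ι) → (H i →* Multiplicative (ZMod p)) := fun i => MonoidHom.mk' (χ i) (by
    intro x y
    apply he
    rw [hχ, map_mul, map_mul, hχ, hχ, Subgroup.coe_mul, map_mul, mul_inv_rev]
    have h5 := hc (χ i y) (ψ₀ x)⁻¹
    rw [hχ] at h5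
    calc φ i x * φ i y * ((ψ₀ y)⁻¹ * (ψ₀ x)⁻¹)
        = φ i x * ((φ i y * (ψ₀ y)⁻¹) * (ψ₀ x)⁻¹) := by group
      _ = φ i x * ((ψ₀ x)⁻¹ * (φ i y * (ψ₀ y)⁻¹)) := by rw [h5]
      _ = _ := by group)
  obtain ⟨χ', hχ'o, hχ', hχ'z⟩ := ext X (by
    intro i
    apply ker_of_locConst
    have h1 := locConst_of_ker (φ i) (hφ i)
    have h2 : IsLocallyConstant (fun x : H i => ψ₀ x) := hψ₀l.comp_continuous continuous_subtype_val
    rw [IsLocallyConstant.iff_exists_open] at *
    intro x
    obtain ⟨U, hU, hx, hU'⟩ := h1 x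
    obtain ⟨V, hV, hx', hV'⟩ := h2 x
    refine ⟨U ∩ V, hU.inter hV, ⟨hx, hx'⟩, ?_⟩
    rintro y ⟨hy, hy'⟩
    apply he
    change e (χ i y) = e (χ i x)
    have h3 := hV' y hy'
    rw [hχ, hχ, hU' y hy, h3]) z
  refine ⟨cmul e hc χ' ψ₀, ?_, ?_, ?_⟩
  · apply ker_of_locConst
    have h1 := locConst_of_ker χ' hχ'o
    have h2 := hψ₀l
    rw [IsLocallyConstant.iff_exists_open] at *
    intro x
    obtain ⟨U, hU, hx, hU'⟩ := h1 x
    obtain ⟨V, hV, hx', hV'⟩ := h2 x
    refine ⟨U ∩ V, hU.inter hV, ⟨hx, hx'⟩, ?_⟩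
    rintro y ⟨hy, hy'⟩
    change e (χ' y) * ψ₀ y = e (χ' x) * ψ₀ x
    rw [hU' y hy, hV' y hy']
  · intro i x
    change e (χ' x) * ψ₀ x = _
    rw [hχ' i x]
    change e (χ i x) * ψ₀ x = _
    rw [hχ, inv_mul_cancel_right]
  · intro k
    change e (χ' (τ k)) * ψ₀ (τ k) = _
    rw [hχ'z, hz, inv_mul_cancel_right]

theorem exist_ext [CompactSpace G] [TotallyDisconnectedSpace G] {τ : κ → G} {H : ι → Subgroup G}
    (hLG : CocLG p H)
    (ext : ∀ (χ : (i : ι) → (H i →* Multiplicative (ZMod p))),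
      (∀ i, IsOpen ((χ i).ker : Set (H i))) → ∀ z : κ → Multiplicative (ZMod p),
      ∃ χ' : G →* Multiplicative (ZMod p), IsOpen (χ'.ker : Set G) ∧
        (∀ i, ∀ x : H i, χ' (x : G) = χ i x) ∧ ∀ k, χ' (τ k) = z k) :
    ∀ (n : ℕ) (P : Type) [Group P] [Finite P], Nat.card P = p ^ n →
      ∀ (φ : (i : ι) → (H i →* P)), (∀ i, IsOpen ((φ i).ker : Set (H i))) → ∀ y : κ → P,
      ∃ ψ : G →* P, IsOpen (ψ.ker : Set G) ∧ (∀ i, ∀ x : H i, ψ (x : G) = φ i x) ∧
        ∀ k, ψ (τ k) = y k := by
  intro n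
  induction n with
  | zero =>
    intro P _ _ hP φ hφ y
    have : Subsingleton P := by
      rw [pow_zero] at hP
      exact (Nat.card_eq_one_iff_unique.mp hP).1
    refine ⟨1, ?_, fun i x => Subsingleton.elim _ _, fun k => Subsingleton.elim _ _⟩
    rw [MonoidHom.ker_one]
    exact isOpen_univ
  | succ n ih =>
    intro P _ _ hP φ hφ y
    obtain ⟨e, Q, _, _, π, he, hc, hπ, hker, hQ⟩ := exists_central P hP
    obtain ⟨ψ', hψ', h1, h2⟩ := ih Q hQ (fun i => π.comp (φ i)) (by
      intro i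
      apply ker_of_locConst
      exact (locConst_of_ker (φ i) (hφ i)).comp π) (fun k => π (y k))
    exact exist_step hLG ext e π he hc hπ hker ψ' hψ' φ hφ h1 y h2

end main

section padic

variable {p : ℕ} [Fact p.Prime]

theorem toZModPow_eq_iff (m : ℕ) (z w : ℤ_[p]) :
    PadicInt.toZModPow m z = PadicInt.toZModPow m w ↔ ‖z - w‖ ≤ (p : ℝ) ^ (-m : ℤ) := by
  rw [PadicInt.norm_le_pow_iff_mem_span_pow, ← PadicInt.ker_toZModPow, RingHom.mem_ker, map_sub,
    sub_eq_zero]

theorem isClosed_fiber (m : ℕ) (a : ZMod (p ^ m)) :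
    IsClosed {z : ℤ_[p] | PadicInt.toZModPow m z = a} := by
  have : NeZero (p ^ m) := ⟨pow_ne_zero _ (Fact.out : p.Prime).ne_zero⟩
  have h0 : PadicInt.toZModPow m ((a.val : ℕ) : ℤ_[p]) = a := by simp
  have : {z : ℤ_[p] | PadicInt.toZModPow m z = a} =
      {z | ‖z - ((a.val : ℕ) : ℤ_[p])‖ ≤ (p : ℝ) ^ (-m : ℤ)} := by
    ext z
    rw [Set.mem_ofPred_eq, Set.mem_ofPred_eq, ← toZModPow_eq_iff, h0]
  rw [this]
  exact isClosed_le (by fun_prop) continuous_const

variable {G : Type*} [Group G] [TopologicalSpace G] [IsTopologicalGroup G]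

theorem closure_padic [CompactSpace G] [TotallyDisconnectedSpace G]
    (hidx : ∀ N : Subgroup G, N.Normal → IsOpen (N : Set G) → ∃ k : ℕ, N.index = p ^ k)
    (τ : G) (ψ : ∀ n : ℕ, G →* Multiplicative (ZMod (p ^ n)))
    (hψ : ∀ n, IsOpen ((ψ n).ker : Set G)) (hτ : ∀ n, ψ n τ = Multiplicative.ofAdd 1) :
    Nonempty ((Subgroup.zpowers τ).topologicalClosure ≃ₜ* Multiplicative ℤ_[p]) := by
  classical
  set T := (Subgroup.zpowers τ).topologicalClosure with hT
  have hzp : ∀ n (j : ℤ), ψ n (τ ^ j) = Multiplicative.ofAdd (j : ZMod (p ^ n)) := by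
    intro n j
    rw [map_zpow, hτ, ← ofAdd_zsmul]
    simp
  have hTc : IsClosed (T : Set G) := Subgroup.isClosed_topologicalClosure _
  have hcl : ∀ x : T, ∀ V : Set G, IsOpen V → (x : G) ∈ V → ∃ j : ℤ, τ ^ j ∈ V := by
    intro x V hV hx
    have h1 : (x : G) ∈ closure ((Subgroup.zpowers τ : Subgroup G) : Set G) := x.2
    obtain ⟨y, hyV, hy⟩ := mem_closure_iff.mp h1 V hV hx
    obtain ⟨j, rfl⟩ := hy
    exact ⟨j, hyV⟩
  have hfib : ∀ n (x : G), IsOpen {y : G | ψ n y = ψ n x} := by
    intro n x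
    exact locConst_of_ker (ψ n) (hψ n) {ψ n x}
  -- construction of the map
  have hex : ∀ x : T, ∃ z : ℤ_[p], ∀ n, PadicInt.toZModPow n z = (ψ n x).toAdd := by
    intro x
    let t : ℕ → Set ℤ_[p] := fun n => {z | ∀ m ≤ n, PadicInt.toZModPow m z = (ψ m x).toAdd}
    have h1 : (⋂ i, t i).Nonempty := by
      apply IsCompact.nonempty_iInter_of_sequence_nonempty_isCompact_isClosed
      · intro i z hz m hm
        exact hz m (by omega)
      · intro n
        have hop : IsOpen (⋂ m ∈ Finset.range (n + 1), {y : G | ψ m y = ψ m x}) :=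
          isOpen_biInter_finset fun m _ => hfib m x
        obtain ⟨j, hj⟩ := hcl x _ hop (by simp)
        refine ⟨(j : ℤ_[p]), ?_⟩
        intro m hm
        simp only [Set.mem_iInter, Finset.mem_range, Set.mem_ofPred_eq] at hj
        have := hj m (by omega)
        rw [hzp] at this
        rw [← this]
        simp
      · apply IsClosed.isCompact
        have : t 0 = ⋂ m ∈ Finset.range 1, {z | PadicInt.toZModPow m z = (ψ m x).toAdd} := by
          ext z; simp [t]
        rw [this]
        exact isClosed_biInter fun m _ => isClosed_fiber m _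
      · intro i
        have : t i = ⋂ m ∈ Finset.range (i + 1),
            {z | PadicInt.toZModPow m z = (ψ m x).toAdd} := by
          ext z; simp [t]
        rw [this]
        exact isClosed_biInter fun m _ => isClosed_fiber m _
    obtain ⟨z, hz⟩ := h1
    refine ⟨z, fun n => ?_⟩
    exact Set.mem_iInter.mp hz n n le_rfl
  choose α hα using hex
  let α' : T →* Multiplicative ℤ_[p] := MonoidHom.mk' (fun x => Multiplicative.ofAdd (α x)) (by
    intro x y
    apply Multiplicative.toAdd.injective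
    simp only [toAdd_mul, toAdd_ofAdd]
    rw [← PadicInt.ext_of_toZModPow]
    intro n
    rw [map_add, hα, hα, hα, Subgroup.coe_mul, map_mul, toAdd_mul])
  have hα' : ∀ x n, PadicInt.toZModPow n (α' x).toAdd = (ψ n x).toAdd := fun x n => hα x n
  -- continuity
  have hcont : Continuous α' := by
    have : Continuous α := by
      rw [Metric.continuous_iff']
      intro x ε hε
      have hp1 : (1 : ℝ) < p := by exact_mod_cast (Fact.out : p.Prime).one_lt
      obtain ⟨n, hn⟩ : ∃ n : ℕ, (p : ℝ) ^ (-n : ℤ) < ε := by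
        obtain ⟨n, hn⟩ := exists_pow_lt_of_lt_one hε (inv_lt_one_of_one_lt₀ hp1)
        refine ⟨n, ?_⟩
        rw [zpow_neg, zpow_natCast, ← inv_pow]
        exact hn
      have hop : IsOpen {y : T | ψ n y = ψ n x} := (hfib n x).preimage continuous_subtype_val
      filter_upwards [hop.mem_nhds rfl] with y hy
      rw [dist_eq_norm]
      refine lt_of_le_of_lt ?_ hn
      rw [← toZModPow_eq_iff, hα, hα]
      have h2 : ψ n y = ψ n x := hy
      rw [h2]
    exact this
  -- injectivity
  have hinj : Function.Injective α' := by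
    rw [injective_iff_map_eq_one]
    intro x hx
    by_contra hne
    have hne' : (x : G) ≠ 1 := fun h => hne (Subtype.ext h)
    obtain ⟨N, hN⟩ := ProfiniteGrp.exist_openNormalSubgroup_sub_open_nhds_of_one
      (isOpen_compl_singleton (x := (x : G))) (by
        intro h
        exact hne' (Set.mem_singleton_iff.mp h).symm)
    obtain ⟨k, hk⟩ := hidx N.toSubgroup N.isNormal' N.isOpen'
    have hNo : IsOpen ((N : Subgroup G) : Set G) := N.isOpen'
    have hop : IsOpen ({y : G | ψ k y = ψ k x} ∩ ((fun y => (x : G)⁻¹ * y) ⁻¹' (N : Set G))) :=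
      (hfib k x).inter (hNo.preimage (continuous_const_mul _))
    obtain ⟨j, hj1, hj2⟩ := hcl x _ hop ⟨rfl, by simp⟩
    have h1 : ψ k (τ ^ j) = ψ k x := hj1
    have h2 : (ψ k (x : G)).toAdd = 0 := by
      rw [← hα', hx, toAdd_one, map_zero]
    rw [hzp] at h1
    have h3 : (j : ZMod (p ^ k)) = 0 := by
      rw [← h2, ← h1, toAdd_ofAdd]
    rw [ZMod.intCast_zmod_eq_zero_iff_dvd] at h3
    obtain ⟨i, rfl⟩ := h3
    have h4 : τ ^ (((p ^ k : ℕ) : ℤ) * i) ∈ N.toSubgroup := by
      rw [zpow_mul, zpow_natCast]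
      apply Subgroup.zpow_mem
      have := N.isNormal'
      rw [← hk]
      exact Subgroup.pow_index_mem N.toSubgroup τ
    have h5 : (x : G)⁻¹ * τ ^ (((p ^ k : ℕ) : ℤ) * i) ∈ N.toSubgroup := hj2
    have h6 : (x : G) ∈ N.toSubgroup := by
      have := N.toSubgroup.mul_mem h4 (N.toSubgroup.inv_mem h5)
      simpa using this
    exact (hN h6) rfl
  -- surjectivity
  have hcompT : CompactSpace T := isCompact_iff_compactSpace.mp hTc.isCompact
  have hsurj : Function.Surjective α' := by
    have h1 : IsClosed (Set.range α') := (isCompact_range hcont).isClosed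
    have h2 : Dense (Set.range α') := by
      have h3 : DenseRange (Int.cast : ℤ → ℤ_[p]) := PadicInt.denseRange_intCast
      have h4 : Dense (Set.range (Int.cast : ℤ → ℤ_[p])) := h3
      refine Dense.mono (?_ : Set.range (Int.cast : ℤ → ℤ_[p]) ⊆ (Set.range α')) h4
      rintro _ ⟨j, rfl⟩
      have hmem : τ ^ j ∈ T := by
        rw [hT]
        exact Subgroup.le_topologicalClosure _ (Subgroup.zpow_mem_zpowers τ j)
      refine ⟨⟨τ ^ j, hmem⟩, ?_⟩
      change α _ = _
      rw [← PadicInt.ext_of_toZModPow]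
      intro n
      rw [hα]
      simp only [hzp, toAdd_ofAdd, map_intCast]
    intro z
    have : Set.range α' = Set.univ := by
      rw [← h1.closure_eq]
      exact h2.closure_eq
    have hz : z ∈ Set.range α' := by rw [this]; trivial
    exact hz
  let e := MulEquiv.ofBijective α' ⟨hinj, hsurj⟩
  have he : Continuous e.toEquiv := hcont
  exact ⟨{ e with
    continuous_toFun := hcont
    continuous_invFun := he.continuous_symm_of_equiv_compact_to_t2 }⟩

end padic

section points

theorem exists_points {X k : Type*} [Field k] (A : Submodule k (X → k)) (S : Finset X)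
    (hS : ∀ f ∈ A, (∀ x ∈ S, f x = 0) → f = 0) :
    ∃ T : Finset X, (∀ f ∈ A, (∀ x ∈ T, f x = 0) → f = 0) ∧
      ∀ z : T → k, ∃ f ∈ A, ∀ x : T, f x = z x := by
  classical
  obtain ⟨T, hT, hmin⟩ := (wellFounded_lt : WellFounded ((· < ·) : Finset X → Finset X → Prop)).has_min
    {T | ∀ f ∈ A, (∀ x ∈ T, f x = 0) → f = 0} ⟨S, hS⟩
  refine ⟨T, hT, ?_⟩
  let L : A →ₗ[k] (T → k) :=
    { toFun := fun f x => f.1 x
      map_add' := by intro f g; rfl
      map_smul' := by intro c f; rfl }
  have hL : LinearMap.range L = ⊤ := by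
    by_contra hne
    obtain ⟨l, hl0, hl⟩ := Submodule.exists_le_ker_of_lt_top _ (lt_of_le_of_ne le_top hne)
    obtain ⟨t, ht⟩ : ∃ t, l (Pi.single t 1) ≠ 0 := by
      by_contra hcon
      push Not at hcon
      apply hl0
      apply LinearMap.pi_ext'
      intro t
      ext
      simpa using hcon t
    have : T.erase (t : X) ∈ {T : Finset X | ∀ f ∈ A, (∀ x ∈ T, f x = 0) → f = 0} := by
      intro f hf h0
      apply hT f hf
      have h1 : l (L ⟨f, hf⟩) = 0 := hl ⟨⟨f, hf⟩, rfl⟩
      have h2 : L ⟨f, hf⟩ = f t • Pi.single t 1 := by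
        funext x
        change f x = _
        by_cases hx : x = t
        · subst hx; simp
        · rw [h0 x (Finset.mem_erase.mpr ⟨fun h => hx (Subtype.ext h), x.2⟩)]
          simp [hx]
      rw [h2, map_smul, smul_eq_mul] at h1
      have h3 : f t = 0 := (mul_eq_zero.mp h1).resolve_right ht
      intro x hx
      by_cases hxt : x = t
      · rw [hxt]; exact h3
      · exact h0 x (Finset.mem_erase.mpr ⟨hxt, hx⟩)
    exact hmin _ this (Finset.erase_ssubset t.2)
  intro z
  have hz : z ∈ LinearMap.range L := by rw [hL]; trivial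
  obtain ⟨f, hf⟩ := hz
  exact ⟨f.1, f.2, fun x => congrFun hf x⟩

end points

section final

variable {p : ℕ} [Fact p.Prime] {G : Type*} [Group G] [TopologicalSpace G] [IsTopologicalGroup G]
  {ι : Type*}

/-- the additive version of homomorphisms to `ℤ/p` with open kernel which vanish on the `H i`. -/
def charSub (p : ℕ) [Fact p.Prime] {G : Type*} [Group G] [TopologicalSpace G] {ι : Type*}
    (H : ι → Subgroup G) : Submodule (ZMod p) (G → ZMod p) where
  carrier := {f | (∀ x y, f (x * y) = f x + f y) ∧ IsLocallyConstant f ∧ ∀ i, ∀ x ∈ H i, f x = 0}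
  add_mem' := by
    rintro f g ⟨h1, h2, h3⟩ ⟨h1', h2', h3'⟩
    refine ⟨fun x y => ?_, h2.add h2', fun i x hx => ?_⟩
    · simp only [Pi.add_apply, h1, h1']; ring
    · simp only [Pi.add_apply, h3 i x hx, h3' i x hx, add_zero]
  zero_mem' := ⟨fun _ _ => by simp, IsLocallyConstant.const 0, fun _ _ _ => rfl⟩
  smul_mem' := by
    rintro c f ⟨h1, h2, h3⟩
    refine ⟨fun x y => ?_, h2.comp (fun a => c • a), fun i x hx => ?_⟩
    · simp only [Pi.smul_apply, h1, smul_eq_mul]; ring
    · simp only [Pi.smul_apply, h3 i x hx, smul_zero]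

/-- the multiplicative version. -/
def toChar {f : G → ZMod p} (h : ∀ x y, f (x * y) = f x + f y) : G →* Multiplicative (ZMod p) :=
  MonoidHom.mk' (fun x => Multiplicative.ofAdd (f x)) (by
    intro x y
    rw [h, ofAdd_add])

theorem exists_tau (H : ι → Subgroup G)
    (hfin : Finite {χ : G →* Multiplicative (ZMod p) // IsOpen (χ.ker : Set G)})
    (hext : HomExt p H) :
    ∃ T : Finset G,
      (∀ χ : G →* Multiplicative (ZMod p), IsOpen (χ.ker : Set G) →
        (∀ i, ∀ x : H i, χ x = 1) → (∀ k : T, χ (k : G) = 1) → χ = 1) ∧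
      ∀ (χ : (i : ι) → (H i →* Multiplicative (ZMod p))),
        (∀ i, IsOpen ((χ i).ker : Set (H i))) → ∀ z : T → Multiplicative (ZMod p),
        ∃ χ' : G →* Multiplicative (ZMod p), IsOpen (χ'.ker : Set G) ∧
          (∀ i, ∀ x : H i, χ' (x : G) = χ i x) ∧ ∀ k : T, χ' (k : G) = z k := by
  classical
  -- a finite set of points which separates
  have hS : ∃ S : Finset G, ∀ f ∈ charSub p H, (∀ x ∈ S, f x = 0) → f = 0 := by
    have := Fintype.ofFinite {χ : G →* Multiplicative (ZMod p) // IsOpen (χ.ker : Set G)}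
    have hpt : ∀ χ : {χ : G →* Multiplicative (ZMod p) // IsOpen (χ.ker : Set G)},
        ∃ x : G, χ.1 ≠ 1 → χ.1 x ≠ 1 := by
      intro χ
      by_cases h : χ.1 = 1
      · exact ⟨1, fun h' => absurd h h'⟩
      · obtain ⟨x, hx⟩ : ∃ x, χ.1 x ≠ 1 := by
          by_contra hcon
          push Not at hcon
          exact h (MonoidHom.ext hcon)
        exact ⟨x, fun _ => hx⟩
    choose pt hpt using hpt
    refine ⟨Finset.univ.image pt, ?_⟩
    rintro f ⟨h1, h2, h3⟩ h0
    let χ : {χ : G →* Multiplicative (ZMod p) // IsOpen (χ.ker : Set G)} :=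
      ⟨toChar h1, ker_of_locConst _ (h2.comp Multiplicative.ofAdd)⟩
    have h4 : χ.1 = 1 := by
      by_contra hne
      apply hpt χ hne
      change Multiplicative.ofAdd (f (pt χ)) = 1
      rw [h0 _ (Finset.mem_image_of_mem _ (Finset.mem_univ _)), ofAdd_zero]
    funext x
    have h5 : Multiplicative.ofAdd (f x) = 1 := DFunLike.congr_fun h4 x
    rw [ofAdd_eq_one] at h5
    exact h5
  obtain ⟨S, hS⟩ := hS
  obtain ⟨T, hT1, hT2⟩ := exists_points (charSub p H) S hS
  refine ⟨T, ?_, ?_⟩
  · intro χ hχ h1 h2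
    have hmem : (fun x => (χ x).toAdd) ∈ charSub p H := by
      refine ⟨fun x y => ?_, (locConst_of_ker χ hχ).comp Multiplicative.toAdd, fun i x hx => ?_⟩
      · simp
      · have := h1 i ⟨x, hx⟩
        simp only at this
        simp [this]
    have h3 := hT1 _ hmem (by
      intro x hx
      have := h2 ⟨x, hx⟩
      simp only at this
      simp [this])
    ext x
    have := congrFun h3 x
    simpa using this
  · intro χ hχ z
    obtain ⟨χ₁, hχ₁, h1⟩ := hext χ hχ
    obtain ⟨f, ⟨hf1, hf2, hf3⟩, hf⟩ := hT2 (fun k => (z k).toAdd - (χ₁ (k : G)).toAdd)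
    refine ⟨χ₁ * toChar hf1, ?_, ?_, ?_⟩
    · apply ker_of_locConst
      exact (locConst_of_ker χ₁ hχ₁).mul (hf2.comp Multiplicative.ofAdd)
    · intro i x
      change χ₁ x * Multiplicative.ofAdd (f x) = _
      rw [h1, hf3 i x x.2, ofAdd_zero, mul_one]
    · intro k
      change χ₁ k * Multiplicative.ofAdd (f k) = _
      rw [hf k, ofAdd_sub, ofAdd_toAdd, ofAdd_toAdd]
      simp

theorem eq_on_closure {τ : G} {P : Type*} [Group P]
    (f g : (Subgroup.zpowers τ).topologicalClosure →* P)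
    (hf : IsOpen (f.ker : Set (Subgroup.zpowers τ).topologicalClosure))
    (hg : IsOpen (g.ker : Set (Subgroup.zpowers τ).topologicalClosure))
    (h : ∀ (hτ : τ ∈ (Subgroup.zpowers τ).topologicalClosure), f ⟨τ, hτ⟩ = g ⟨τ, hτ⟩) : f = g := by
  ext x
  have h1 := locConst_of_ker f hf {f x}
  have h2 := locConst_of_ker g hg {g x}
  obtain ⟨U, hU, hUf⟩ := isOpen_induced_iff.mp (h1.inter h2)
  have hxU : (x : G) ∈ U := by
    have : x ∈ (f ⁻¹' {f x}) ∩ (g ⁻¹' {g x}) := ⟨rfl, rfl⟩
    rw [← hUf] at this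
    exact this
  have hx : (x : G) ∈ closure ((Subgroup.zpowers τ : Subgroup G) : Set G) := x.2
  obtain ⟨y, hyU, hy⟩ := mem_closure_iff.mp hx U hU hxU
  obtain ⟨j, rfl⟩ := hy
  have hτ : τ ∈ (Subgroup.zpowers τ).topologicalClosure :=
    Subgroup.le_topologicalClosure _ (Subgroup.mem_zpowers τ)
  have h3 : (⟨τ, hτ⟩ : (Subgroup.zpowers τ).topologicalClosure) ^ j ∈
      (f ⁻¹' {f x}) ∩ (g ⁻¹' {g x}) := by
    rw [← hUf]
    exact hyU
  obtain ⟨h4, h5⟩ := h3
  have h4' : f (⟨τ, hτ⟩ ^ j) = f x := h4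
  have h5' : g (⟨τ, hτ⟩ ^ j) = g x := h5
  rw [← h4', ← h5', map_zpow, map_zpow, h hτ]

/-- **(FP)** -/
theorem freeProd_of {G : Type} [Group G] [TopologicalSpace G] [IsTopologicalGroup G]
    {ι : Type} [CompactSpace G] [TotallyDisconnectedSpace G] (H : ι → Subgroup G)
    (hidx : ∀ N : Subgroup G, N.Normal → IsOpen (N : Set G) → ∃ k : ℕ, N.index = p ^ k)
    (hfin : Finite {χ : G →* Multiplicative (ZMod p) // IsOpen (χ.ker : Set G)})
    (hext : HomExt p H) (hLG : CocLG p H) :
    ∃ T : Finset G,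
      FreeProd p (Sum.elim H (fun t : T => (Subgroup.zpowers (t : G)).topologicalClosure)) ∧
      ∀ t : T, Nonempty ((Subgroup.zpowers (t : G)).topologicalClosure ≃ₜ* Multiplicative ℤ_[p]) := by
  obtain ⟨T, hinj, hext'⟩ := exists_tau H hfin hext
  have hex := exist_ext (τ := fun t : T => (t : G)) hLG hext'
  have huq := unique_step (τ := fun t : T => (t : G)) (H := H) hinj
  refine ⟨T, ?_, ?_⟩
  · intro P _ _ ⟨n, hn⟩ φ hφ
    have hmem : ∀ t : T, (t : G) ∈ (Subgroup.zpowers (t : G)).topologicalClosure := fun t =>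
      Subgroup.le_topologicalClosure _ (Subgroup.mem_zpowers _)
    obtain ⟨ψ, hψ, h1, h2⟩ := hex n P hn (fun i => φ (Sum.inl i)) (fun i => hφ (Sum.inl i))
      (fun t => φ (Sum.inr t) ⟨t, hmem t⟩)
    refine ⟨ψ, ⟨hψ, ?_⟩, ?_⟩
    · rintro (i | t) x
      · exact h1 i x
      · have h3 : (ψ.comp ((Subgroup.zpowers (t : G)).topologicalClosure).subtype) = φ (Sum.inr t) := by
          apply eq_on_closure
          · apply ker_of_locConst
            exact (locConst_of_ker ψ hψ).comp_continuous continuous_subtype_val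
          · exact hφ (Sum.inr t)
          · intro hτ
            exact h2 t
        exact DFunLike.congr_fun h3 x
    · rintro ψ' ⟨hψ', h3⟩
      refine huq n P hn ψ' ψ hψ' hψ ?_ ?_
      · intro i x
        rw [h1]
        exact h3 (Sum.inl i) x
      · intro t
        rw [h2]
        exact h3 (Sum.inr t) ⟨t, hmem t⟩
  · intro t
    have : ∀ n : ℕ, ∃ ψ : G →* Multiplicative (ZMod (p ^ n)), IsOpen (ψ.ker : Set G) ∧
        ψ t = Multiplicative.ofAdd 1 := by
      intro n
      have : NeZero (p ^ n) := ⟨pow_ne_zero _ (Fact.out : p.Prime).ne_zero⟩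
      obtain ⟨ψ, h1, -, h3⟩ := hex n (Multiplicative (ZMod (p ^ n))) (by simp) (fun i => 1) (by
        intro i
        rw [MonoidHom.ker_one]
        exact isOpen_univ) (fun _ => Multiplicative.ofAdd 1)
      exact ⟨ψ, h1, h3 t⟩
    choose ψ hψ1 hψ2 using this
    exact closure_padic hidx t ψ hψ1 hψ2

end final

end Pool.Agent.Helper40.EC
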